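import Mathlib
import Pool.Agent.TH407.AR.Defs
set_option autoImplicit false

/-!
# Products of planar functions of bounded variation along rays, all dimensions

Definitions for the paraboloid in `ℝ^(n+1)`.
-/

namespace Pool.Agent.TH407.PR

open MeasureTheory Set Complex
open scoped ENNReal NNReal Real

/-- the extension operator of the parabola, on the whole line -/
noncomputable def E1 (b : ℝ → ℂ) (y t : ℝ) : ℂ :=
  ∫ x : ℝ, cexp (-(I * ((x * y + x ^ 2 * t : ℝ) : ℂ))) * b x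

/-- the extension operator of the paraboloid in `ℝ^(n+1)`, on the whole space -/
noncomputable def EN {n : ℕ} (f : (Fin n → ℝ) → ℂ) (y : (Fin n → ℝ) × ℝ) : ℂ :=
  ∫ ξ : Fin n → ℝ,
    f ξ * cexp (2 * Real.pi * I * ((∑ j, ξ j * y.1 j + (∑ j, ξ j ^ 2) * y.2 : ℝ) : ℂ))

/-- the product of functions `F j` of the pairs of coordinates and functions `b i` of the single
coordinates of a partition `e` of the coordinates -/
noncomputable def tens {n k l : ℕ} (e : (Fin k × Fin 2) ⊕ Fin l ≃ Fin n) (F : Fin k → ℝ × ℝ → ℂ)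
    (b : Fin l → ℝ → ℂ) (ξ : Fin n → ℝ) : ℂ :=
  (∏ j, F j (ξ (e (Sum.inl (j, 0))), ξ (e (Sum.inl (j, 1))))) * ∏ i, b i (ξ (e (Sum.inr i)))

/-- T: tensor products -/
def Tensor : Prop :=
  ∀ (n k l : ℕ) (e : (Fin k × Fin 2) ⊕ Fin l ≃ Fin n) (F : Fin k → ℝ × ℝ → ℂ) (b : Fin l → ℝ → ℂ),
    (∀ j, Measurable (F j)) → (∀ i, Measurable (b i)) → ∀ (q : ℝ), 0 < q → ∀ t : ℝ,
    ∫⁻ y : Fin n → ℝ, ‖EN (tens e F b) (y, t)‖ₑ ^ q =
      ENNReal.ofReal ((2 * π) ^ (-(n : ℝ))) *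
        ((∏ j, ∫⁻ X : ℝ × ℝ, ‖AR.EX (F j) X (-(2 * π * t))‖ₑ ^ q) *
          ∏ i, ∫⁻ y : ℝ, ‖E1 (b i) y (-(2 * π * t))‖ₑ ^ q)

/-- O: fixed time `L^q` bounds for functions of bounded variation on the line -/
def OneDim : Prop :=
  ∀ q : ℝ, 2 < q → ∃ C : ℝ≥0, ∀ (b : ℝ → ℂ) (V : ℝ≥0), Measurable b →
    (∀ x, x ∉ Icc (-1 : ℝ) 1 → b x = 0) → eVariationOn b univ ≤ V → ∀ t : ℝ,
    ∫⁻ y : ℝ, ‖E1 b y t‖ₑ ^ q ≤ C * ENNReal.ofReal ((1 + |t|) ^ (-((q - 2) / 2))) * (V : ℝ≥0∞) ^ q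

end Pool.Agent.TH407.PR
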