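import Mathlib
import Pool.Agent.TH407.AR.Restr
set_option autoImplicit false

/-! Fixed time bounds for functions of bounded variation along rays: the basic case. -/

namespace Pool.Agent.TH407.PR

open MeasureTheory Set Complex
open scoped ENNReal NNReal Real
open Pool.Agent.TH407.AR hiding sq
open Pool.Agent.TH407.ARx

theorem fixed_adm4 (h1 : FourierFacts) (h2 : LowL4) (h3 : FaBounds) (q : ℝ) (hq : 2 < q)
    (hq4 : q ≤ 4) (δ : ℝ) (hδ : 0 < δ) (hδ2 : δ ≤ 1 / 2) : ∃ K : ℝ≥0∞, K ≠ ∞ ∧ ∀ (a : ℝ → ℝ → ℂ) (M : ℝ → ℝ≥0) (B : ℝ≥0), Adm a M →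
      (∀ θ, M θ ≤ B) → ∀ t : ℝ, ∫⁻ X : ℝ × ℝ, ‖EX (fa a) X t‖ₑ ^ q ≤
        K * ENNReal.ofReal ((1 + ‖t‖) ^ (-((q - 2) * (1 - δ / 2)))) * ((B : ℝ≥0∞) ^ (q - 2) *
          ∫⁻ θ in Ioo (-π) π, (M θ : ℝ≥0∞) ^ 2) := by
  have hq2 : 0 < q - 2 := by linarith
  obtain ⟨C, hC⟩ := h2 δ hδ hδ2
  set γ : ℝ := (q - 2) * (1 - δ / 2) with hγ
  have hγ0 : 0 < γ := by
    rw [hγ]
    exact mul_pos hq2 (by linarith)
  have hγq : γ ≤ q / 2 := by
    rw [hγ]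
    nlinarith
  -- constants
  set P : ℝ≥0∞ := ENNReal.ofReal (2 * π) ^ ((q - 2) / 2) with hP
  have hPt : P ≠ ∞ := ENNReal.rpow_ne_top_of_nonneg (by linarith) ENNReal.ofReal_ne_top
  set A1 : ℝ≥0∞ := ENNReal.ofReal (2 * π ^ 2) ^ ((4 - q) / 2) * (C : ℝ≥0∞) ^ ((q - 2) / 2) with hA1
  have hA1t : A1 ≠ ∞ := ENNReal.mul_ne_top
    (ENNReal.rpow_ne_top_of_nonneg (by linarith) ENNReal.ofReal_ne_top)
    (ENNReal.rpow_ne_top_of_nonneg (by linarith) ENNReal.coe_ne_top)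
  set A2 : ℝ≥0∞ := ENNReal.ofReal (2 * π ^ 2) * P * ENNReal.ofReal (6 ^ (q / 2)) with hA2
  have hA2t : A2 ≠ ∞ := ENNReal.mul_ne_top (ENNReal.mul_ne_top ENNReal.ofReal_ne_top hPt)
    ENNReal.ofReal_ne_top
  set K0 : ℝ≥0∞ := ENNReal.ofReal (2 * π ^ 2) * P + (2 : ℝ≥0∞) ^ (q - 1) * (A1 + A2) with hK0
  have h2t : (2 : ℝ≥0∞) ^ (q - 1) ≠ ∞ := ENNReal.rpow_ne_top_of_nonneg (by linarith) (by norm_num)
  refine ⟨K0 * ENNReal.ofReal (2 ^ γ), ?_, ?_⟩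
  · refine ENNReal.mul_ne_top (ENNReal.add_ne_top.mpr ⟨ENNReal.mul_ne_top ENNReal.ofReal_ne_top hPt,
      ENNReal.mul_ne_top h2t (ENNReal.add_ne_top.mpr ⟨hA1t, hA2t⟩)⟩) ENNReal.ofReal_ne_top
  intro a M B ha hMB t
  set N : ℝ≥0∞ := ∫⁻ θ in Ioo (-π) π, (M θ : ℝ≥0∞) ^ 2 with hN
  have hNB : N ≤ ENNReal.ofReal (2 * π) * (B : ℝ≥0∞) ^ 2 := by
    calc N ≤ ∫⁻ θ in Ioo (-π) π, (B : ℝ≥0∞) ^ 2 := by
          refine lintegral_mono fun θ => ?_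
          exact pow_le_pow_left' (ENNReal.coe_le_coe.mpr (hMB θ)) 2
      _ = _ := by
          rw [setLIntegral_const, Real.volume_Ioo, mul_comm]
          congr 2
          ring
  have hNt : N ≠ ∞ := ne_top_of_le_ne_top (ENNReal.mul_ne_top ENNReal.ofReal_ne_top
    (ENNReal.pow_ne_top ENNReal.coe_ne_top)) hNB
  have hB2 : ((B : ℝ≥0∞) ^ 2) ^ ((q - 2) / 2) = (B : ℝ≥0∞) ^ (q - 2) := by
    rw [← ENNReal.rpow_natCast, ← ENNReal.rpow_mul]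
    congr 1
    push_cast
    ring
  have hNp : N ^ ((q - 2) / 2) ≤ P * (B : ℝ≥0∞) ^ (q - 2) := by
    calc N ^ ((q - 2) / 2) ≤ (ENNReal.ofReal (2 * π) * (B : ℝ≥0∞) ^ 2) ^ ((q - 2) / 2) :=
          ENNReal.rpow_le_rpow hNB (by linarith)
      _ = _ := by rw [ENNReal.mul_rpow_of_nonneg _ _ (by linarith), hB2]
  -- `L²` norm of `a`
  have hWa : W a ≤ N := by
    rw [W_swap ha.ma]
    refine lintegral_mono fun θ => ?_
    calc ∫⁻ s : ℝ, ‖a s θ‖ₑ ^ 2 ≤ ∫⁻ s : ℝ, (Icc (0 : ℝ) 1).indicator (fun _ => (M θ : ℝ≥0∞) ^ 2) s := by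
          refine lintegral_mono fun s => ?_
          by_cases hs : s ∈ Icc (0 : ℝ) 1
          · rw [indicator_of_mem hs]
            exact pow_le_pow_left' (ha.bd s θ) 2
          · rw [ha.supp s θ hs]
            simp
      _ = (M θ : ℝ≥0∞) ^ 2 := by
          rw [lintegral_indicator measurableSet_Icc, setLIntegral_const, Real.volume_Icc]
          simp
  have hwt : ∀ x : ℝ, 0 ≤ x → (x < 1 → 1 ≤ ENNReal.ofReal (2 ^ γ) * ENNReal.ofReal ((1 + x) ^ (-γ))) ∧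
      (1 ≤ x → ENNReal.ofReal (x ^ (-γ)) ≤ ENNReal.ofReal (2 ^ γ) * ENNReal.ofReal ((1 + x) ^ (-γ))) := by
    intro x hx
    constructor
    · intro hx1
      rw [← ENNReal.ofReal_mul (by positivity), ← ENNReal.ofReal_one]
      apply ENNReal.ofReal_le_ofReal
      rw [Real.rpow_neg (by linarith), ← div_eq_mul_inv, one_le_div (by positivity)]
      exact Real.rpow_le_rpow (by linarith) (by linarith) hγ0.le
    · intro hx1
      rw [← ENNReal.ofReal_mul (by positivity)]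
      apply ENNReal.ofReal_le_ofReal
      rw [Real.rpow_neg hx, Real.rpow_neg (by linarith), ← div_eq_mul_inv, ← one_div,
        div_le_div_iff₀ (by positivity) (by positivity), one_mul, ← Real.mul_rpow two_pos.le hx]
      exact Real.rpow_le_rpow (by linarith) (by linarith) hγ0.le
  rcases lt_or_ge ‖t‖ 1 with ht | ht
  · -- small times
    have h4 := fixed h3 q (by linarith) ha.ma (ne_top_of_le_ne_top hNt hWa) t
    calc ∫⁻ X : ℝ × ℝ, ‖EX (fa a) X t‖ₑ ^ q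
        ≤ ENNReal.ofReal (2 * π ^ 2) * (W a ^ ((q - 2) / 2) * W a) := h4
      _ ≤ ENNReal.ofReal (2 * π ^ 2) * (P * (B : ℝ≥0∞) ^ (q - 2) * N) := by
          exact mul_le_mul' le_rfl (mul_le_mul'
            ((ENNReal.rpow_le_rpow hWa (by linarith)).trans hNp) hWa)
      _ = (ENNReal.ofReal (2 * π ^ 2) * P) * 1 * ((B : ℝ≥0∞) ^ (q - 2) * N) := by ring
      _ ≤ K0 * (ENNReal.ofReal (2 ^ γ) * ENNReal.ofReal ((1 + ‖t‖) ^ (-γ))) *
            ((B : ℝ≥0∞) ^ (q - 2) * N) := by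
          exact mul_le_mul' (mul_le_mul' le_self_add ((hwt ‖t‖ (norm_nonneg t)).1 ht)) le_rfl
      _ = _ := by ring
  · -- large times
    have ht0 : 0 < ‖t‖ := by linarith
    obtain ⟨_, _, hT⟩ := h1 a M ha
    obtain ⟨f1, f2, f3⟩ := hT ‖t‖ ht0
    set b1 := aT a ‖t‖ with hb1
    set b2 : ℝ → ℝ → ℂ := fun s θ => a s θ - b1 s θ with hb2
    have hb2m : Measurable (Function.uncurry b2) := ha.ma.sub f1
    have hW1 : W b1 ≤ N := by
      rw [W_swap f1]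
      exact lintegral_mono fun θ => f2 θ
    have hW2 : W b2 ≤ N * ENNReal.ofReal (6 / ‖t‖) := by
      rw [W_swap hb2m, hN, ← lintegral_mul_const' _ _ ENNReal.ofReal_ne_top]
      exact lintegral_mono fun θ => f3 θ
    have hW1t : W b1 ≠ ∞ := ne_top_of_le_ne_top hNt hW1
    have hW2t : W b2 ≠ ∞ := ne_top_of_le_ne_top (ENNReal.mul_ne_top hNt ENNReal.ofReal_ne_top) hW2
    have g1 := h3 b1 f1 hW1t
    have g2 := h3 b2 hb2m hW2t
    have hadd : ∀ X, EX (fa a) X t = EX (fa b1) X t + EX (fa b2) X t := by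
      intro X
      rw [← EX_add g1.1 g2.1]
      congr 2
      funext s θ
      simp only [hb2]
      ring
    -- first part
    have i1 : ∫⁻ X : ℝ × ℝ, ‖EX (fa b1) X t‖ₑ ^ q ≤
        A1 * ENNReal.ofReal (‖t‖ ^ (-γ)) * ((B : ℝ≥0∞) ^ (q - 2) * N) := by
      have h4 := hC a M B ha hMB ‖t‖ ht t (le_of_eq (Real.norm_eq_abs t))
      have hNN : N = N ^ ((4 - q) / 2) * N ^ ((q - 2) / 2) := by
        rw [← ENNReal.rpow_add_of_nonneg _ _ (by linarith) (by linarith)]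
        rw [show (4 - q) / 2 + (q - 2) / 2 = 1 by ring, ENNReal.rpow_one]
      have hTp : ENNReal.ofReal (‖t‖ ^ (-2 + δ)) ^ ((q - 2) / 2) =
          ENNReal.ofReal (‖t‖ ^ (-γ)) := by
        rw [ENNReal.ofReal_rpow_of_pos (by positivity), ← Real.rpow_mul ht0.le]
        congr 2
        rw [hγ]
        ring
      calc ∫⁻ X : ℝ × ℝ, ‖EX (fa b1) X t‖ₑ ^ q
          ≤ (∫⁻ X, ‖EX (fa b1) X t‖ₑ ^ 2) ^ ((4 - q) / 2) *
              (∫⁻ X, ‖EX (fa b1) X t‖ₑ ^ 4) ^ ((q - 2) / 2) :=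
            interp q (by linarith) (by linarith) _ (meas_EXt (meas_fa f1) t)
        _ ≤ (ENNReal.ofReal (2 * π ^ 2) * N) ^ ((4 - q) / 2) *
              (C * ENNReal.ofReal (‖t‖ ^ (-2 + δ)) * B ^ 2 * N) ^ ((q - 2) / 2) := by
            apply mul_le_mul'
            · exact ENNReal.rpow_le_rpow ((g1.2.2.1 t).trans (mul_le_mul' le_rfl hW1)) (by linarith)
            · exact ENNReal.rpow_le_rpow h4 (by linarith)
        _ = A1 * ENNReal.ofReal (‖t‖ ^ (-γ)) * ((B : ℝ≥0∞) ^ (q - 2) *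
              (N ^ ((4 - q) / 2) * N ^ ((q - 2) / 2))) := by
            rw [ENNReal.mul_rpow_of_nonneg _ _ (by linarith), ENNReal.mul_rpow_of_nonneg _ _ (by linarith),
              ENNReal.mul_rpow_of_nonneg _ _ (by linarith), ENNReal.mul_rpow_of_nonneg _ _ (by linarith),
              hTp, hB2, hA1]
            ring
        _ = _ := by rw [← hNN]
    -- second part
    have i2 : ∫⁻ X : ℝ × ℝ, ‖EX (fa b2) X t‖ₑ ^ q ≤
        A2 * ENNReal.ofReal (‖t‖ ^ (-γ)) * ((B : ℝ≥0∞) ^ (q - 2) * N) := by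
      have h4 := fixed h3 q (by linarith) hb2m hW2t t
      have h5 : ENNReal.ofReal (6 / ‖t‖) ^ ((q - 2) / 2) * ENNReal.ofReal (6 / ‖t‖) ≤
          ENNReal.ofReal (6 ^ (q / 2)) * ENNReal.ofReal (‖t‖ ^ (-γ)) := by
        have h6 : (0 : ℝ) < 6 / ‖t‖ := by positivity
        rw [ENNReal.ofReal_rpow_of_pos h6, ← ENNReal.ofReal_mul (by positivity),
          ← ENNReal.ofReal_mul (by positivity)]
        apply ENNReal.ofReal_le_ofReal
        have h7 : (6 / ‖t‖) ^ ((q - 2) / 2) * (6 / ‖t‖) = (6 / ‖t‖) ^ (q / 2) := by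
          nth_rw 2 [← Real.rpow_one (6 / ‖t‖)]
          rw [← Real.rpow_add h6]
          congr 1
          ring
        rw [h7, Real.div_rpow (by norm_num) ht0.le, div_eq_mul_inv, ← Real.rpow_neg ht0.le]
        refine mul_le_mul_of_nonneg_left (Real.rpow_le_rpow_of_exponent_le ht ?_) (by positivity)
        linarith
      calc ∫⁻ X : ℝ × ℝ, ‖EX (fa b2) X t‖ₑ ^ q
          ≤ ENNReal.ofReal (2 * π ^ 2) * (W b2 ^ ((q - 2) / 2) * W b2) := h4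
        _ ≤ ENNReal.ofReal (2 * π ^ 2) * ((N * ENNReal.ofReal (6 / ‖t‖)) ^ ((q - 2) / 2) *
              (N * ENNReal.ofReal (6 / ‖t‖))) := by
            exact mul_le_mul' le_rfl (mul_le_mul' (ENNReal.rpow_le_rpow hW2 (by linarith)) hW2)
        _ = ENNReal.ofReal (2 * π ^ 2) * (N ^ ((q - 2) / 2) * N) *
              (ENNReal.ofReal (6 / ‖t‖) ^ ((q - 2) / 2) * ENNReal.ofReal (6 / ‖t‖)) := by
            rw [ENNReal.mul_rpow_of_nonneg _ _ (by linarith)]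
            ring
        _ ≤ ENNReal.ofReal (2 * π ^ 2) * (P * (B : ℝ≥0∞) ^ (q - 2) * N) *
              (ENNReal.ofReal (6 ^ (q / 2)) * ENNReal.ofReal (‖t‖ ^ (-γ))) := by
            exact mul_le_mul' (mul_le_mul' le_rfl (mul_le_mul' hNp le_rfl)) h5
        _ = _ := by rw [hA2]; ring
    calc ∫⁻ X : ℝ × ℝ, ‖EX (fa a) X t‖ₑ ^ q
        ≤ ∫⁻ X : ℝ × ℝ, (2 : ℝ≥0∞) ^ (q - 1) * (‖EX (fa b1) X t‖ₑ ^ q + ‖EX (fa b2) X t‖ₑ ^ q) := by
          refine lintegral_mono fun X => ?_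
          rw [hadd X]
          exact (ENNReal.rpow_le_rpow (enorm_add_le _ _) (by linarith)).trans
            (ENNReal.rpow_add_le_mul_rpow_add_rpow _ _ (by linarith))
      _ = (2 : ℝ≥0∞) ^ (q - 1) * ((∫⁻ X : ℝ × ℝ, ‖EX (fa b1) X t‖ₑ ^ q) +
            ∫⁻ X : ℝ × ℝ, ‖EX (fa b2) X t‖ₑ ^ q) := by
          rw [lintegral_const_mul' _ _ h2t, lintegral_add_left]
          exact (meas_EXt (meas_fa f1) t).enorm.pow_const q
      _ ≤ (2 : ℝ≥0∞) ^ (q - 1) * (A1 * ENNReal.ofReal (‖t‖ ^ (-γ)) * ((B : ℝ≥0∞) ^ (q - 2) * N) +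
            A2 * ENNReal.ofReal (‖t‖ ^ (-γ)) * ((B : ℝ≥0∞) ^ (q - 2) * N)) := by
          exact mul_le_mul' le_rfl (add_le_add i1 i2)
      _ = ((2 : ℝ≥0∞) ^ (q - 1) * (A1 + A2)) * ENNReal.ofReal (‖t‖ ^ (-γ)) *
            ((B : ℝ≥0∞) ^ (q - 2) * N) := by ring
      _ ≤ K0 * (ENNReal.ofReal (2 ^ γ) * ENNReal.ofReal ((1 + ‖t‖) ^ (-γ))) *
            ((B : ℝ≥0∞) ^ (q - 2) * N) := by
          exact mul_le_mul' (mul_le_mul' le_add_self ((hwt ‖t‖ (norm_nonneg t)).2 ht)) le_rfl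
      _ = _ := by ring


theorem fixed_adm (h1 : FourierFacts) (h2 : LowL4) (h3 : FaBounds) (q : ℝ) (hq : 2 < q)
    (δ : ℝ) (hδ : 0 < δ) (hδ2 : δ ≤ 1 / 2) : ∃ K : ℝ≥0∞, K ≠ ∞ ∧ ∀ (a : ℝ → ℝ → ℂ) (V : ℝ≥0),
      Adm a (fun _ => V) → ∀ t : ℝ, ∫⁻ X : ℝ × ℝ, ‖EX (fa a) X t‖ₑ ^ q ≤
        K * ENNReal.ofReal ((1 + |t|) ^ (-((min q 4 - 2) * (1 - δ / 2)))) * (V : ℝ≥0∞) ^ q := by
  set r : ℝ := min q 4 with hr
  have hr2 : 2 < r := lt_min hq (by norm_num)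
  have hrq : r ≤ q := min_le_left _ _
  obtain ⟨K, hK, hb⟩ := fixed_adm4 h1 h2 h3 r hr2 (min_le_right _ _) δ hδ hδ2
  set P : ℝ≥0∞ := ENNReal.ofReal (2 * π) ^ ((q - r) / 2) with hP
  have hPt : P ≠ ∞ := ENNReal.rpow_ne_top_of_nonneg (by linarith) ENNReal.ofReal_ne_top
  refine ⟨P * K * ENNReal.ofReal (2 * π), ENNReal.mul_ne_top (ENNReal.mul_ne_top hPt hK)
    ENNReal.ofReal_ne_top, ?_⟩
  intro a V ha t
  set N : ℝ≥0∞ := ENNReal.ofReal (2 * π) * (V : ℝ≥0∞) ^ 2 with hN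
  have hNe : ∫⁻ θ in Ioo (-π) π, (V : ℝ≥0∞) ^ 2 = N := by
    rw [setLIntegral_const, Real.volume_Ioo, mul_comm, hN]
    congr 2
    ring
  have hNt : N ≠ ∞ := ENNReal.mul_ne_top ENNReal.ofReal_ne_top
    (ENNReal.pow_ne_top ENNReal.coe_ne_top)
  have hWa : W a ≤ N := by
    rw [W_swap ha.ma, ← hNe]
    refine lintegral_mono fun θ => ?_
    calc ∫⁻ s : ℝ, ‖a s θ‖ₑ ^ 2 ≤ ∫⁻ s : ℝ, (Icc (0 : ℝ) 1).indicator (fun _ => (V : ℝ≥0∞) ^ 2) s := by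
          refine lintegral_mono fun s => ?_
          by_cases hs : s ∈ Icc (0 : ℝ) 1
          · rw [indicator_of_mem hs]
            exact pow_le_pow_left' (ha.bd s θ) 2
          · rw [ha.supp s θ hs]
            simp
      _ = (V : ℝ≥0∞) ^ 2 := by
          rw [lintegral_indicator measurableSet_Icc, setLIntegral_const, Real.volume_Icc]
          simp
  obtain ⟨_, _, _, h5⟩ := h3 a ha.ma (ne_top_of_le_ne_top hNt hWa)
  have hpt : ∀ X : ℝ × ℝ, ‖EX (fa a) X t‖ₑ ^ q ≤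
      (P * (V : ℝ≥0∞) ^ (q - r)) * ‖EX (fa a) X t‖ₑ ^ r := by
    intro X
    have e : ‖EX (fa a) X t‖ₑ ^ q =
        (‖EX (fa a) X t‖ₑ ^ 2) ^ ((q - r) / 2) * ‖EX (fa a) X t‖ₑ ^ r := by
      rw [← ENNReal.rpow_natCast, ← ENNReal.rpow_mul, ← ENNReal.rpow_add_of_nonneg _ _
        (by push_cast; linarith) (by linarith)]
      congr 1
      push_cast
      ring
    rw [e]
    refine mul_le_mul' ?_ le_rfl
    calc (‖EX (fa a) X t‖ₑ ^ 2) ^ ((q - r) / 2) ≤ (ENNReal.ofReal (2 * π) * (V : ℝ≥0∞) ^ 2) ^ ((q - r) / 2) :=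
          ENNReal.rpow_le_rpow ((h5 X t).trans hWa) (by linarith)
      _ = P * (V : ℝ≥0∞) ^ (q - r) := by
          rw [ENNReal.mul_rpow_of_nonneg _ _ (by linarith), ← ENNReal.rpow_natCast (V : ℝ≥0∞) 2,
            ← ENNReal.rpow_mul]
          congr 2
          push_cast
          ring
  have hPB : P * (V : ℝ≥0∞) ^ (q - r) ≠ ∞ :=
    ENNReal.mul_ne_top hPt (ENNReal.rpow_ne_top_of_nonneg (by linarith) ENNReal.coe_ne_top)
  have hVr : (V : ℝ≥0∞) ^ (q - r) * ((V : ℝ≥0∞) ^ (r - 2) * (V : ℝ≥0∞) ^ 2) = (V : ℝ≥0∞) ^ q := by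
    rw [← ENNReal.rpow_natCast (V : ℝ≥0∞) 2, ← ENNReal.rpow_add_of_nonneg _ _ (by linarith)
      (by norm_num), ← ENNReal.rpow_add_of_nonneg _ _ (by linarith) (by push_cast; linarith)]
    congr 1
    push_cast
    ring
  have h6 := hb a (fun _ => V) V ha (fun _ => le_rfl) t
  rw [hNe, Real.norm_eq_abs] at h6
  calc ∫⁻ X : ℝ × ℝ, ‖EX (fa a) X t‖ₑ ^ q
      ≤ ∫⁻ X : ℝ × ℝ, (P * (V : ℝ≥0∞) ^ (q - r)) * ‖EX (fa a) X t‖ₑ ^ r :=
        lintegral_mono hpt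
    _ = (P * (V : ℝ≥0∞) ^ (q - r)) * ∫⁻ X : ℝ × ℝ, ‖EX (fa a) X t‖ₑ ^ r :=
        lintegral_const_mul' _ _ hPB
    _ ≤ (P * (V : ℝ≥0∞) ^ (q - r)) * (K * ENNReal.ofReal ((1 + |t|) ^ (-((r - 2) * (1 - δ / 2)))) *
          ((V : ℝ≥0∞) ^ (r - 2) * N)) :=
        mul_le_mul' le_rfl h6
    _ = P * K * ENNReal.ofReal (2 * π) * ENNReal.ofReal ((1 + |t|) ^ (-((r - 2) * (1 - δ / 2)))) *
          ((V : ℝ≥0∞) ^ (q - r) * ((V : ℝ≥0∞) ^ (r - 2) * (V : ℝ≥0∞) ^ 2)) := by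
        rw [hN]; ring
    _ = _ := by rw [hVr]

end Pool.Agent.TH407.PR
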