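import Mathlib
import Pool.Agent.TH407.PR.R1
import Pool.Agent.TH407.AR.M3
import Pool.Agent.TH370.VR.Shell
set_option autoImplicit false

/-! Fixed time bounds for functions of bounded variation along rays: shells, discs, centres. -/

namespace Pool.Agent.TH407.PR

open MeasureTheory Set Complex
open scoped ENNReal NNReal Real
open Pool.Agent.TH407.AR

/-- the fixed time bound for the basic functions -/
def FixedAdm (q σ : ℝ) : Prop :=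
  ∃ K : ℝ≥0∞, K ≠ ∞ ∧ ∀ (a : ℝ → ℝ → ℂ) (V : ℝ≥0),
      Adm a (fun _ => V) → ∀ t : ℝ, ∫⁻ X : ℝ × ℝ, ‖EX (fa a) X t‖ₑ ^ q ≤
        K * ENNReal.ofReal ((1 + |t|) ^ (-σ)) * (V : ℝ≥0∞) ^ q

theorem fixed_shell (hV : VarMod) {q σ : ℝ} (hq : 0 < q) (h : FixedAdm q σ) :
    ∃ K : ℝ≥0∞, K ≠ ∞ ∧ ∀ (f : ℝ × ℝ → ℂ) (V : ℝ≥0), Measurable f →
    (∀ x, ¬ (1 / 4 < AR.sq x ∧ AR.sq x ≤ 1) → f x = 0) →
    (∀ θ ∈ Ioo (-π) π, ∀ r ∈ Ioc (1 / 2 : ℝ) 1, ‖f (pol r θ)‖ₑ ≤ V) →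
    (∀ θ ∈ Ioo (-π) π, eVariationOn (fun r => f (pol r θ)) (Ioc (1 / 2) 1) ≤ V) → ∀ t : ℝ,
    ∫⁻ X : ℝ × ℝ, ‖EX f X t‖ₑ ^ q ≤ K * ENNReal.ofReal ((1 + |t|) ^ (-σ)) * (V : ℝ≥0∞) ^ q := by
  obtain ⟨K, hK, hb⟩ := h
  refine ⟨K * 35 ^ q, ENNReal.mul_ne_top hK (by
    apply ENNReal.rpow_ne_top_of_nonneg hq.le; norm_num), ?_⟩
  intro f V hf h0 hbd hvar t
  have hadm := Pool.Agent.TH370.VR.aa_adm hV hf (M := fun _ => V) measurable_const hbd hvar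
  have h1 := hb (Pool.Agent.TH370.VR.aa f) (35 * V) hadm t
  have hae : fa (Pool.Agent.TH370.VR.aa f) =ᵐ[volume] f := by
    have h2 : ∀ᵐ x : ℝ × ℝ, x ∈ polarCoord.source := by
      have h3 := polarCoord_source_ae_eq_univ
      filter_upwards [h3] with x hx
      have : polarCoord.source x ↔ (univ : Set (ℝ × ℝ)) x := by
        rw [hx]
      exact this.2 trivial
    filter_upwards [h2] with x hx
    exact Pool.Agent.TH370.VR.fa_aa h0 hx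
  have hEX : ∀ X, EX f X t = EX (fa (Pool.Agent.TH370.VR.aa f)) X t := by
    intro X
    unfold EX
    refine integral_congr_ae ?_
    filter_upwards [hae] with x hx
    rw [hx]
  simp only [hEX]
  refine h1.trans (le_of_eq ?_)
  rw [ENNReal.coe_mul, ENNReal.mul_rpow_of_nonneg _ _ hq.le]
  push_cast
  ring

/-- scaling at a fixed time -/
lemma scale_t (f : ℝ × ℝ → ℂ) (p : ℝ × ℝ) (ρ : ℝ) (hρ : 0 < ρ) (q : ℝ) (hq : 0 ≤ q) (t : ℝ) :
    ∫⁻ X : ℝ × ℝ, ‖EX f X t‖ₑ ^ q =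
      ENNReal.ofReal (ρ ^ (2 * q - 2)) *
        ∫⁻ X : ℝ × ℝ, ‖EX (fun y => f (p + ρ • y)) X (ρ ^ 2 * t)‖ₑ ^ q := by
  have h := lint_aff (fun X : ℝ × ℝ => ‖EX (fun y => f (p + ρ • y)) X (ρ ^ 2 * t)‖ₑ ^ q)
    ((2 * t) • p) ρ hρ
  have hpt : ∀ X : ℝ × ℝ, ‖EX f X t‖ₑ ^ q = ENNReal.ofReal (ρ ^ (2 * q)) *
      ‖EX (fun y => f (p + ρ • y)) (ρ • (X + (2 * t) • p)) (ρ ^ 2 * t)‖ₑ ^ q := by
    intro X
    rw [EX_aff f p ρ hρ X t, ENNReal.mul_rpow_of_nonneg _ _ hq,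
      ENNReal.ofReal_rpow_of_nonneg (by positivity) hq, ← Real.rpow_natCast,
      ← Real.rpow_mul hρ.le]
    norm_num
  simp_rw [hpt]
  rw [lintegral_const_mul' _ _ ENNReal.ofReal_ne_top, h, ← mul_assoc,
    ← ENNReal.ofReal_mul (by positivity)]
  congr 2
  rw [← Real.rpow_natCast, ← Real.rpow_neg hρ.le, ← Real.rpow_add hρ]
  congr 1

/-- weights in time -/
lemma wt_le {σ ρ t : ℝ} (hσ : 0 ≤ σ) (hρ : 0 < ρ) (hρ1 : ρ ≤ 1) :
    (1 + |ρ ^ 2 * t|) ^ (-σ) ≤ ρ ^ (-(2 * σ)) * (1 + |t|) ^ (-σ) := by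
  have h1 : ρ ^ 2 * (1 + |t|) ≤ 1 + |ρ ^ 2 * t| := by
    rw [abs_mul, abs_of_pos (by positivity : 0 < ρ ^ 2)]
    nlinarith [abs_nonneg t]
  have h2 : ρ ^ (-(2 * σ)) = (ρ ^ 2) ^ (-σ) := by
    rw [← Real.rpow_natCast, ← Real.rpow_mul hρ.le]
    congr 1
    push_cast
    ring
  rw [h2, ← Real.mul_rpow (by positivity) (by positivity)]
  exact Real.rpow_le_rpow_of_nonpos (by positivity) h1 (by linarith)

lemma wt_le' {σ ρ t : ℝ} (hσ : 0 ≤ σ) (hρ1 : 1 ≤ ρ) :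
    (1 + |ρ ^ 2 * t|) ^ (-σ) ≤ (1 + |t|) ^ (-σ) := by
  have h1 : 1 + |t| ≤ 1 + |ρ ^ 2 * t| := by
    rw [abs_mul, abs_of_pos (by positivity : 0 < ρ ^ 2)]
    have : 1 ≤ ρ ^ 2 := by nlinarith
    nlinarith [abs_nonneg t]
  exact Real.rpow_le_rpow_of_nonpos (by positivity) h1 (by linarith)

theorem fixed_disc (hV : VarMod) {q σ : ℝ} (hq : 2 < q) (hσ : 0 ≤ σ) (hσq : σ ≤ q - 2)
    (h : FixedAdm q σ) : ∃ K : ℝ≥0∞, K ≠ ∞ ∧ ∀ (f : ℝ × ℝ → ℂ) (V : ℝ≥0), Measurable f →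
    (∀ x, 1 < AR.sq x → f x = 0) →
    (∀ x, ‖f x‖ₑ + eVariationOn (fun s : ℝ => f (s • x)) (Icc (1 / 4) 1) ≤ V) → ∀ t : ℝ,
    ∫⁻ X : ℝ × ℝ, ‖EX f X t‖ₑ ^ q ≤ K * ENNReal.ofReal ((1 + |t|) ^ (-σ)) * (V : ℝ≥0∞) ^ q := by
  have hq0 : 0 < q := by linarith
  have hq1 : 0 < q - 1 := by linarith
  obtain ⟨K, hK, hb⟩ := fixed_shell hV hq0 h
  set ε : ℝ := 1 / (q - 1) with hε
  have hε0 : 0 < ε := by positivity
  set K1 : ℝ≥0∞ := ∑' j, ENNReal.ofReal (rj j ^ ε) with hK1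
  set K2 : ℝ≥0∞ := ∑' j, ENNReal.ofReal (rj j ^ (2 * q - 3 - 2 * σ)) with hK2
  have hK1f : K1 ≠ ∞ := sum_rj ε hε0
  have hK2f : K2 ≠ ∞ := sum_rj _ (by linarith)
  refine ⟨K1 ^ (q - 1) * (K2 * K), ENNReal.mul_ne_top (ENNReal.rpow_ne_top_of_nonneg hq1.le hK1f)
    (ENNReal.mul_ne_top hK2f hK), ?_⟩
  intro f V hf h0 hW t
  set M : ℝ × ℝ → ℝ≥0∞ := fun _ => V with hM
  have hMm : Measurable M := measurable_const
  have hWJ : ∀ ρ θ, WJ M q ρ θ ≠ ∞ := by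
    intro ρ θ
    unfold WJ
    simp only [hM]
    have : ∫⁻ r in Ioc (1 : ℝ) 2, (V : ℝ≥0∞) ^ q * ENNReal.ofReal r ≤
        ∫⁻ r in Ioc (1 : ℝ) 2, (V : ℝ≥0∞) ^ q * 2 := by
      apply setLIntegral_mono' measurableSet_Ioc
      intro r hr
      gcongr
      calc ENNReal.ofReal r ≤ ENNReal.ofReal 2 := ENNReal.ofReal_le_ofReal hr.2
        _ = 2 := by norm_num
    refine ne_top_of_le_ne_top ?_ this
    rw [setLIntegral_const, Real.volume_Ioc]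
    refine ENNReal.mul_ne_top (ENNReal.mul_ne_top
      (ENNReal.rpow_ne_top_of_nonneg hq0.le ENNReal.coe_ne_top) (by norm_num)) ENNReal.ofReal_ne_top
  have hfint : ∫⁻ x, ‖f x‖ₑ ≠ ∞ := by
    have hle : ∀ x, ‖f x‖ₑ ≤ (Icc ((-1 : ℝ), (-1 : ℝ)) ((1 : ℝ), (1 : ℝ))).indicator
        (fun _ => (V : ℝ≥0∞)) x := by
      intro x
      by_cases hx : x ∈ Icc ((-1 : ℝ), (-1 : ℝ)) ((1 : ℝ), (1 : ℝ))
      · rw [indicator_of_mem hx]
        exact le_self_add.trans (hW x)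
      · rw [h0 x]
        · simp
        · by_contra hlt
          push Not at hlt
          apply hx
          have hx' : x.1 ^ 2 + x.2 ^ 2 ≤ 1 := hlt
          have a1 := abs_le_of_sq_le_sq' (by nlinarith [sq_nonneg x.2] : x.1 ^ 2 ≤ 1 ^ 2) one_pos.le
          have a2 := abs_le_of_sq_le_sq' (by nlinarith [sq_nonneg x.1] : x.2 ^ 2 ≤ 1 ^ 2) one_pos.le
          exact ⟨⟨a1.1, a2.1⟩, ⟨a1.2, a2.2⟩⟩
    refine ne_top_of_le_ne_top ?_ (lintegral_mono hle)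
    rw [lintegral_indicator measurableSet_Icc, setLIntegral_const]
    exact ENNReal.mul_ne_top ENNReal.coe_ne_top isCompact_Icc.measure_lt_top.ne
  have hne0 : ∀ᵐ x : ℝ × ℝ, x ≠ 0 := by
    rw [ae_iff]
    simp
  have hsum : ∀ᵐ x : ℝ × ℝ, f x = ∑' j, fj f M q j x := by
    filter_upwards [hne0] with x h2
    exact (tsum_fj q h0 h2 (fun j => hWJ _ _)).symm
  have hm : ∀ j, Measurable (fj f M q j) := fun j => fj_meas q hf hMm j
  have hsq := sq_meas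
  have hEX : ∀ (X : ℝ × ℝ), ‖EX f X t‖ₑ ≤ ∑' j, ‖EX (fj f M q j) X t‖ₑ := by
    intro X
    have hph : Measurable (fun x : ℝ × ℝ =>
        cexp (-(I * ((x.1 * X.1 + x.2 * X.2 + AR.sq x * t : ℝ) : ℂ)))) := by fun_prop
    have hn : ∀ x : ℝ × ℝ, ‖cexp (-(I * ((x.1 * X.1 + x.2 * X.2 + AR.sq x * t : ℝ) : ℂ)))‖ₑ = 1 := by
      intro x
      rw [← ofReal_norm, show (-(I * ((x.1 * X.1 + x.2 * X.2 + AR.sq x * t : ℝ) : ℂ))) =
        (((-(x.1 * X.1 + x.2 * X.2 + AR.sq x * t) : ℝ) : ℂ) * I) by push_cast; ring,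
        Complex.norm_exp_ofReal_mul_I, ENNReal.ofReal_one]
    have e1 : EX f X t = ∫ x : ℝ × ℝ, ∑' j,
        cexp (-(I * ((x.1 * X.1 + x.2 * X.2 + AR.sq x * t : ℝ) : ℂ))) * fj f M q j x := by
      unfold EX
      apply integral_congr_ae
      filter_upwards [hsum] with x hx
      rw [hx, tsum_mul_left]
    have e2 : ∑' j, ∫⁻ x : ℝ × ℝ,
        ‖cexp (-(I * ((x.1 * X.1 + x.2 * X.2 + AR.sq x * t : ℝ) : ℂ))) * fj f M q j x‖ₑ ≠ ∞ := by
      simp_rw [enorm_mul, hn, one_mul]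
      rw [← lintegral_tsum (fun j => (hm j).enorm.aemeasurable)]
      exact (lt_of_le_of_lt (lintegral_mono (fun x => tsum_fj_le q x))
        (lt_top_iff_ne_top.2 hfint)).ne
    have hmj : ∀ j, AEStronglyMeasurable (fun x : ℝ × ℝ =>
        cexp (-(I * ((x.1 * X.1 + x.2 * X.2 + AR.sq x * t : ℝ) : ℂ))) * fj f M q j x) volume :=
      fun j => (hph.mul (hm j)).aestronglyMeasurable
    rw [e1, integral_tsum hmj e2]
    exact enorm_tsum_le_tsum_enorm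
  -- each piece
  have hpiece : ∀ j, ∫⁻ X : ℝ × ℝ, ‖EX (fj f M q j) X t‖ₑ ^ q ≤
      ENNReal.ofReal (rj j ^ (2 * q - 2 - 2 * σ)) *
        (K * ENNReal.ofReal ((1 + |t|) ^ (-σ)) * (V : ℝ≥0∞) ^ q) := by
    intro j
    have hr := rj_pos j
    have hr1 : rj j ≤ 1 := by
      unfold rj
      exact pow_le_one₀ (by norm_num) (by norm_num)
    rw [scale_t (fj f M q j) 0 (rj j) hr q hq0.le t]
    have e1 : (fun y => fj f M q j (0 + rj j • y)) = FJ f M q (rj j) := by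
      ext y
      unfold fj
      rw [zero_add, smul_smul, inv_mul_cancel₀ hr.ne', one_smul]
    rw [e1]
    have h1 := hb (FJ f M q (rj j)) V (FJ_meas q hf hMm (rj j)) (by
        intro x hx
        unfold FJ
        rw [if_neg]
        intro h
        exact hx h.1) (by
        intro θ hθ r hr
        rw [FJ_pol q hr hθ (hWJ _ _)]
        exact pt_bd (M := M) hW hr (r' := 2) (by norm_num)) (by
        intro θ hθ
        have : EqOn (fun r => FJ f M q (rj j) (pol r θ)) (fun r => f (pol (rj j * r) θ))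
          (Ioc (1 / 2 : ℝ) 1) := fun r hr => FJ_pol q hr hθ (hWJ _ _)
        rw [eVariationOn.congr this]
        exact var_bd (M := M) hW (r' := 2) (by norm_num)) (rj j ^ 2 * t)
    calc ENNReal.ofReal (rj j ^ (2 * q - 2)) *
          ∫⁻ X : ℝ × ℝ, ‖EX (FJ f M q (rj j)) X (rj j ^ 2 * t)‖ₑ ^ q
        ≤ ENNReal.ofReal (rj j ^ (2 * q - 2)) *
            (K * ENNReal.ofReal ((1 + |rj j ^ 2 * t|) ^ (-σ)) * (V : ℝ≥0∞) ^ q) :=
          mul_le_mul' le_rfl h1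
      _ ≤ ENNReal.ofReal (rj j ^ (2 * q - 2)) *
            (K * (ENNReal.ofReal (rj j ^ (-(2 * σ))) * ENNReal.ofReal ((1 + |t|) ^ (-σ))) *
              (V : ℝ≥0∞) ^ q) := by
          gcongr
          rw [← ENNReal.ofReal_mul (by positivity)]
          exact ENNReal.ofReal_le_ofReal (wt_le hσ hr hr1)
      _ = (ENNReal.ofReal (rj j ^ (2 * q - 2)) * ENNReal.ofReal (rj j ^ (-(2 * σ)))) *
            (K * ENNReal.ofReal ((1 + |t|) ^ (-σ)) * (V : ℝ≥0∞) ^ q) := by ring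
      _ = _ := by
          rw [← ENNReal.ofReal_mul (by positivity), ← Real.rpow_add hr]
          congr 3
  -- summation
  have hw0 : ∀ j, ENNReal.ofReal (rj j ^ ε) ≠ 0 := by
    intro j
    have := rj_pos j
    rw [Ne, ENNReal.ofReal_eq_zero, not_le]
    positivity
  have hpt : ∀ X : ℝ × ℝ, ‖EX f X t‖ₑ ^ q ≤ K1 ^ (q - 1) * ∑' j,
      ENNReal.ofReal (rj j ^ (-1 : ℝ)) * ‖EX (fj f M q j) X t‖ₑ ^ q := by
    intro X
    refine (ENNReal.rpow_le_rpow (hEX X) hq0.le).trans ?_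
    refine (sum_pow (fun j => ENNReal.ofReal (rj j ^ ε)) _ q (by linarith) hw0
      (fun j => ENNReal.ofReal_ne_top)).trans (le_of_eq ?_)
    congr 1
    apply tsum_congr
    intro j
    congr 1
    have := rj_pos j
    rw [ENNReal.ofReal_rpow_of_pos (by positivity), ← Real.rpow_mul this.le]
    congr 2
    rw [hε]
    field_simp
    ring
  have hmt : ∀ j, Measurable (fun X : ℝ × ℝ => ‖EX (fj f M q j) X t‖ₑ ^ q) := by
    intro j
    have h1 : Measurable (fun X : ℝ × ℝ => (X, t)) := measurable_id.prodMk measurable_const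
    exact (((EX_meas (hm j)).comp h1).enorm.pow_const q)
  calc ∫⁻ X : ℝ × ℝ, ‖EX f X t‖ₑ ^ q
      ≤ ∫⁻ X : ℝ × ℝ, K1 ^ (q - 1) * ∑' j,
        ENNReal.ofReal (rj j ^ (-1 : ℝ)) * ‖EX (fj f M q j) X t‖ₑ ^ q := lintegral_mono hpt
    _ = K1 ^ (q - 1) * ∑' j, ENNReal.ofReal (rj j ^ (-1 : ℝ)) *
          ∫⁻ X : ℝ × ℝ, ‖EX (fj f M q j) X t‖ₑ ^ q := by
        rw [lintegral_const_mul' _ _ (ENNReal.rpow_ne_top_of_nonneg hq1.le hK1f),
          lintegral_tsum (fun j => ((hmt j).const_mul _).aemeasurable)]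
        congr 1
        apply tsum_congr
        intro j
        rw [lintegral_const_mul _ (hmt j)]
    _ ≤ K1 ^ (q - 1) * ∑' j, ENNReal.ofReal (rj j ^ (-1 : ℝ)) *
          (ENNReal.ofReal (rj j ^ (2 * q - 2 - 2 * σ)) *
            (K * ENNReal.ofReal ((1 + |t|) ^ (-σ)) * (V : ℝ≥0∞) ^ q)) := by
        gcongr with j
        exact hpiece j
    _ = K1 ^ (q - 1) * (K2 * (K * ENNReal.ofReal ((1 + |t|) ^ (-σ)) * (V : ℝ≥0∞) ^ q)) := by
        have : ∀ j, ENNReal.ofReal (rj j ^ (-1 : ℝ)) *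
          (ENNReal.ofReal (rj j ^ (2 * q - 2 - 2 * σ)) *
            (K * ENNReal.ofReal ((1 + |t|) ^ (-σ)) * (V : ℝ≥0∞) ^ q)) =
            ENNReal.ofReal (rj j ^ (2 * q - 3 - 2 * σ)) *
              (K * ENNReal.ofReal ((1 + |t|) ^ (-σ)) * (V : ℝ≥0∞) ^ q) := by
          intro j
          have hr := rj_pos j
          rw [← mul_assoc, ← ENNReal.ofReal_mul (by positivity), ← Real.rpow_add hr]
          congr 3
          ring
        simp_rw [this]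
        rw [ENNReal.tsum_mul_right]
    _ = _ := by ring

end Pool.Agent.TH407.PR
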