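import Mathlib
import Pool.Agent.TH407.PR.R2
set_option autoImplicit false

/-! Fixed time bounds for functions of bounded variation along the rays from a point. -/

namespace Pool.Agent.TH407.PR

open MeasureTheory Set Complex
open scoped ENNReal NNReal Real
open Pool.Agent.TH407.AR

/-- `F` vanishes off the square `[-1,1]²` and has total variation at most `V` along every ray
from `p` -/
structure RayBV (p : ℝ × ℝ) (V : ℝ≥0) (F : ℝ × ℝ → ℂ) : Prop where
  meas : Measurable F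
  supp : ∀ x, x ∉ Icc ((-1 : ℝ), (-1 : ℝ)) ((1 : ℝ), (1 : ℝ)) → F x = 0
  var : ∀ x, x ≠ p → eVariationOn (fun s : ℝ => F (p + s • (x - p))) (Ioi 0) ≤ V

lemma RayBV.bd {p : ℝ × ℝ} {V : ℝ≥0} {F : ℝ × ℝ → ℂ} (h : RayBV p V F) {x : ℝ × ℝ} (hx : x ≠ p) :
    ‖F x‖ₑ ≤ V := by
  obtain ⟨s, hs, hs0⟩ : ∃ s : ℝ, 0 < s ∧ F (p + s • (x - p)) = 0 := by
    have hne : x.1 - p.1 ≠ 0 ∨ x.2 - p.2 ≠ 0 := by
      by_contra hcon
      push Not at hcon
      exact hx (Prod.ext (sub_eq_zero.1 hcon.1) (sub_eq_zero.1 hcon.2))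
    have key : ∀ a c : ℝ, c ≠ 0 → 1 < |a + (2 + |a|) / |c| * c| := by
      intro a c hc
      have hc' : 0 < |c| := abs_pos.2 hc
      have h1 : |(2 + |a|) / |c| * c| = 2 + |a| := by
        rw [abs_mul, abs_div, abs_abs, div_mul_cancel₀ _ hc'.ne', abs_of_pos (by positivity)]
      have h2 : |(2 + |a|) / |c| * c| ≤ |a + (2 + |a|) / |c| * c| + |a| := by
        calc |(2 + |a|) / |c| * c| = |(a + (2 + |a|) / |c| * c) - a| := by congr 1; ring
          _ ≤ _ := abs_sub _ _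
      rw [h1] at h2
      linarith
    rcases hne with h1 | h1
    · refine ⟨(2 + |p.1|) / |x.1 - p.1|, by have := abs_pos.2 h1; positivity, ?_⟩
      apply h.supp
      intro hm
      have h2 := key p.1 (x.1 - p.1) h1
      have h3 : |(p + ((2 + |p.1|) / |x.1 - p.1|) • (x - p)).1| ≤ 1 := abs_le.2 ⟨hm.1.1, hm.2.1⟩
      simp only [Prod.fst_add, Prod.smul_fst, Prod.fst_sub, smul_eq_mul] at h3
      linarith
    · refine ⟨(2 + |p.2|) / |x.2 - p.2|, by have := abs_pos.2 h1; positivity, ?_⟩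
      apply h.supp
      intro hm
      have h2 := key p.2 (x.2 - p.2) h1
      have h3 : |(p + ((2 + |p.2|) / |x.2 - p.2|) • (x - p)).2| ≤ 1 := abs_le.2 ⟨hm.1.2, hm.2.2⟩
      simp only [Prod.snd_add, Prod.smul_snd, Prod.snd_sub, smul_eq_mul] at h3
      linarith
  have h1 := eVariationOn.edist_le (fun s : ℝ => F (p + s • (x - p))) (s := Ioi 0)
    (mem_Ioi.2 one_pos) (mem_Ioi.2 hs)
  simp only [one_smul, hs0, edist_zero_right] at h1
  have e : p + (x - p) = x := by abel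
  rw [e] at h1
  exact h1.trans (h.var x hx)

theorem fixed_ray (hV : VarMod) {q σ : ℝ} (hq : 2 < q) (hσ : 0 ≤ σ) (hσq : σ ≤ q - 2)
    (h : FixedAdm q σ) (R : ℝ) (hR : 0 ≤ R) : ∃ K : ℝ≥0∞, K ≠ ∞ ∧ ∀ (p : ℝ × ℝ), AR.sq p ≤ R ^ 2 →
    ∀ (F : ℝ × ℝ → ℂ) (V : ℝ≥0), RayBV p V F → ∀ t : ℝ,
    ∫⁻ X : ℝ × ℝ, ‖EX F X t‖ₑ ^ q ≤ K * ENNReal.ofReal ((1 + |t|) ^ (-σ)) * (V : ℝ≥0∞) ^ q := by
  classical
  have hq0 : 0 < q := by linarith
  obtain ⟨K, hK, hb⟩ := fixed_disc hV hq hσ hσq h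
  set ρ : ℝ := R + 2 with hρd
  have hρ : 0 < ρ := by linarith
  refine ⟨ENNReal.ofReal (ρ ^ (2 * q - 2)) * (K * 2 ^ q), ENNReal.mul_ne_top ENNReal.ofReal_ne_top
    (ENNReal.mul_ne_top hK (by apply ENNReal.rpow_ne_top_of_nonneg hq0.le; norm_num)), ?_⟩
  intro p hp F V hF t
  set G : ℝ × ℝ → ℂ := fun y => if y = 0 then 0 else F (p + ρ • y) with hG
  have hmG : Measurable G := by
    simp only [hG]
    have := hF.meas
    exact Measurable.ite (measurableSet_singleton 0) measurable_const (by fun_prop)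
  have h1 := hb G (2 * V) hmG ?_ ?_ (ρ ^ 2 * t)
  · rw [scale_t F p ρ hρ q hq0.le t]
    have e : ∀ X, EX (fun y => F (p + ρ • y)) X (ρ ^ 2 * t) = EX G X (ρ ^ 2 * t) := by
      intro X
      unfold EX
      apply integral_congr_ae
      have hne0 : ∀ᵐ x : ℝ × ℝ, x ≠ 0 := by
        rw [ae_iff]
        simp
      filter_upwards [hne0] with x hx
      simp only [hG]
      rw [if_neg hx]
    simp only [e]
    calc ENNReal.ofReal (ρ ^ (2 * q - 2)) * ∫⁻ X : ℝ × ℝ, ‖EX G X (ρ ^ 2 * t)‖ₑ ^ q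
        ≤ ENNReal.ofReal (ρ ^ (2 * q - 2)) *
          (K * ENNReal.ofReal ((1 + |ρ ^ 2 * t|) ^ (-σ)) * ((2 * V : ℝ≥0) : ℝ≥0∞) ^ q) :=
          mul_le_mul' le_rfl h1
      _ ≤ ENNReal.ofReal (ρ ^ (2 * q - 2)) *
          (K * ENNReal.ofReal ((1 + |t|) ^ (-σ)) * ((2 * V : ℝ≥0) : ℝ≥0∞) ^ q) := by
          gcongr ENNReal.ofReal (ρ ^ (2 * q - 2)) * (K * ENNReal.ofReal ?_ * _)
          exact wt_le' hσ (by linarith)
      _ = _ := by
          rw [ENNReal.coe_mul, ENNReal.mul_rpow_of_nonneg _ _ hq0.le]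
          push_cast
          ring
  · intro y hy
    simp only [hG]
    split_ifs with hy0
    · rfl
    apply hF.supp
    intro hm
    have hs1 : √(AR.sq p) ^ 2 = AR.sq p := Real.sq_sqrt (by unfold AR.sq; positivity)
    have hs2 : √(AR.sq y) ^ 2 = AR.sq y := Real.sq_sqrt (by unfold AR.sq; positivity)
    have hs3 : 1 < √(AR.sq y) := by
      rw [← Real.sqrt_one]
      exact Real.sqrt_lt_sqrt (by norm_num) hy
    have hs4 : √(AR.sq p) ≤ R := by
      rw [← Real.sqrt_sq hR]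
      exact Real.sqrt_le_sqrt hp
    have hcs : -(√(AR.sq p) * √(AR.sq y)) ≤ p.1 * y.1 + p.2 * y.2 := by
      have : (p.1 * y.1 + p.2 * y.2) ^ 2 ≤ (√(AR.sq p) * √(AR.sq y)) ^ 2 := by
        rw [mul_pow, hs1, hs2]
        unfold AR.sq
        nlinarith [sq_nonneg (p.1 * y.2 - p.2 * y.1)]
      exact (abs_le_of_sq_le_sq' this (by positivity)).1
    have e : AR.sq (p + ρ • y) = AR.sq p + 2 * ρ * (p.1 * y.1 + p.2 * y.2) + ρ ^ 2 * AR.sq y := by
      unfold AR.sq
      simp only [Prod.fst_add, Prod.snd_add, Prod.smul_fst, Prod.smul_snd, smul_eq_mul]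
      ring
    have h3 : (ρ * √(AR.sq y) - √(AR.sq p)) ^ 2 ≤ AR.sq (p + ρ • y) := by
      rw [e, sub_sq, mul_pow, hs1, hs2]
      nlinarith
    have h4 : 2 < ρ * √(AR.sq y) - √(AR.sq p) := by
      have : ρ < ρ * √(AR.sq y) := by nlinarith
      linarith [hρd]
    have h5 : AR.sq (p + ρ • y) ≤ 2 := by
      have a1 := abs_le.2 ⟨hm.1.1, hm.2.1⟩
      have a2 := abs_le.2 ⟨hm.1.2, hm.2.2⟩
      have b1 := sq_le_one_iff_abs_le_one _ |>.2 a1
      have b2 := sq_le_one_iff_abs_le_one _ |>.2 a2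
      unfold AR.sq
      linarith
    nlinarith
  · intro y
    by_cases hy : y = 0
    · subst hy
      have e1 : G 0 = 0 := by simp [hG]
      have e2 : (fun s : ℝ => G (s • (0 : ℝ × ℝ))) = fun _ => 0 := by
        ext s
        rw [smul_zero, e1]
      rw [e1, e2, enorm_zero, zero_add, eVariationOn.constant_on]
      · exact bot_le
      · rintro _ ⟨a, _, rfl⟩ _ ⟨b, _, rfl⟩
        rfl
    · have hne : p + ρ • y ≠ p := by
        intro h
        apply hy
        have : ρ • y = 0 := by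
          have := congrArg (fun z => z - p) h
          simpa using this
        exact (smul_eq_zero.1 this).resolve_left hρ.ne'
      have h2 := hF.var (p + ρ • y) hne
      have h3 := hF.bd hne
      have e1 : G y = F (p + ρ • y) := by simp [hG, hy]
      have e2 : EqOn (fun s : ℝ => G (s • y)) (fun s : ℝ => F (p + s • (p + ρ • y - p)))
          (Icc (1 / 4) 1) := by
        intro s hs
        have hs0 : s ≠ 0 := by
          have := hs.1
          intro h
          rw [h] at this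
          norm_num at this
        have hsy : s • y ≠ 0 := smul_ne_zero hs0 hy
        simp only [hG]
        rw [if_neg hsy, add_sub_cancel_left, smul_comm]
      rw [e1, eVariationOn.congr e2]
      have h4 : eVariationOn (fun s : ℝ => F (p + s • (p + ρ • y - p))) (Icc (1 / 4) 1) ≤ V := by
        refine (eVariationOn.mono _ ?_).trans h2
        intro s hs
        have := hs.1
        exact mem_Ioi.2 (by linarith)
      calc ‖F (p + ρ • y)‖ₑ + eVariationOn (fun s : ℝ => F (p + s • (p + ρ • y - p))) (Icc (1 / 4) 1)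
          ≤ V + V := add_le_add h3 h4
        _ = _ := by rw [ENNReal.coe_mul, ENNReal.coe_ofNat, two_mul]

end Pool.Agent.TH407.PR
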