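import Mathlib
import Pool.Agent.TH407.PR.Defs
import Pool.Agent.TH407.PR.R3
import Pool.Agent.TH277.HT.D
set_option autoImplicit false

/-! Mixed norm bounds in one and two variables. -/

namespace Pool.Agent.TH407.PR

open MeasureTheory Set Complex
open scoped ENNReal NNReal Real
open Pool.Agent.TH407.AR
open Pool.Agent.TH277

/-- the exponent -/
lemma exists_sigma (n : ℕ) (hn : 2 ≤ n) (q : ℝ) (hq : 2 * ((n : ℝ) + 1) / n < q) :
    2 < q ∧ ∃ δ : ℝ, 0 < δ ∧ δ ≤ 1 / 2 ∧ 1 < (min q 4 - 2) * (1 - δ / 2) * (n / 2) ∧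
      0 ≤ (min q 4 - 2) * (1 - δ / 2) ∧ (min q 4 - 2) * (1 - δ / 2) ≤ q - 2 := by
  have hn2 : (2 : ℝ) ≤ n := by exact_mod_cast hn
  have hn0 : (0 : ℝ) < n := by linarith
  have hq2 : 2 < n * (q - 2) := by
    rw [div_lt_iff₀ hn0] at hq
    linarith
  have hq0 : 2 < q := by
    by_contra h
    have : n * (q - 2) ≤ 0 := mul_nonpos_of_nonneg_of_nonpos hn0.le (by linarith)
    linarith
  refine ⟨hq0, ?_⟩
  set m : ℝ := min q 4 - 2 with hm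
  have hm0 : 0 < m := by
    have : 2 < min q 4 := lt_min hq0 (by norm_num)
    rw [hm]
    linarith
  have hmq : m ≤ q - 2 := by
    have := min_le_left q 4
    rw [hm]
    linarith
  have hnm : 2 < n * m := by
    rcases le_total q 4 with h | h
    · rw [hm, min_eq_left h]
      exact hq2
    · rw [hm, min_eq_right h]
      linarith
  have hnm0 : 0 < n * m := by linarith
  have hr : 2 / (n * m) < 1 := by rw [div_lt_one hnm0]; exact hnm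
  have hr0 : 0 < 2 / (n * m) := by positivity
  refine ⟨min (1 / 2) (1 - 2 / (n * m)), lt_min (by norm_num) (by linarith), min_le_left _ _, ?_,
    ?_, ?_⟩
  · have h1 := min_le_right (1 / 2 : ℝ) (1 - 2 / (n * m))
    have h2 : 2 / (n * m) < 1 - min (1 / 2) (1 - 2 / (n * m)) / 2 := by linarith
    calc (1 : ℝ) = m * (2 / (n * m)) * (n / 2) := by field_simp
      _ < _ := by gcongr
  · have h1 := min_le_left (1 / 2 : ℝ) (1 - 2 / (n * m))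
    exact mul_nonneg hm0.le (by linarith)
  · have h1 : 0 ≤ min (1 / 2 : ℝ) (1 - 2 / (n * m)) := le_min (by norm_num) (by linarith)
    calc m * (1 - min (1 / 2) (1 - 2 / (n * m)) / 2) ≤ m * 1 := by
          gcongr
          linarith
      _ ≤ q - 2 := by linarith

lemma lint_neg_mul (G : ℝ → ℝ≥0∞) (c : ℝ) (hc : 0 < c) :
    ∫⁻ t : ℝ, G (-(c * t)) = ENNReal.ofReal c⁻¹ * ∫⁻ t : ℝ, G t := by
  have h1 := lint_aff1 (fun t => G (-t)) c hc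
  rw [h1, lintegral_neg_eq_self]

/-- mixed norm bound in two variables -/
theorem mix_ray (h1 : FourierFacts) (h2 : LowL4) (h3 : FaBounds) (hV : VarMod)
    (n : ℕ) (hn : 2 ≤ n) (q : ℝ) (hq : 2 * ((n : ℝ) + 1) / n < q) (K : ℝ≥0) :
    ∃ C : ℝ≥0∞, C ≠ ∞ ∧ ∀ (p : ℝ × ℝ), AR.sq p ≤ (K : ℝ) ^ 2 → ∀ (F : ℝ × ℝ → ℂ), RayBV p K F →
      ∫⁻ t : ℝ, (∫⁻ X : ℝ × ℝ, ‖EX F X (-(2 * π * t))‖ₑ ^ q) ^ ((n : ℝ) / 2) ≤ C := by
  obtain ⟨hq2, δ, hδ, hδ2, hσ1, hσ0, hσq⟩ := exists_sigma n hn q hq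
  have hn0 : (0 : ℝ) < n := by
    have : (2 : ℝ) ≤ n := by exact_mod_cast hn
    linarith
  set σ : ℝ := (min q 4 - 2) * (1 - δ / 2) with hσ
  have hF : FixedAdm q σ := fixed_adm h1 h2 h3 q hq2 δ hδ hδ2
  obtain ⟨C, hC, hb⟩ := fixed_ray hV hq2 hσ0 hσq hF (K : ℝ) K.2
  set J : ℝ≥0∞ := ∫⁻ t : ℝ, ENNReal.ofReal ((1 + ‖t‖) ^ (-(σ * (n / 2)))) with hJ
  have hJt : J ≠ ∞ := by
    refine (finite_integral_one_add_norm ?_).ne
    simp only [Module.finrank_self, Nat.cast_one]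
    exact hσ1
  have hn2 : (0 : ℝ) ≤ (n : ℝ) / 2 := by positivity
  refine ⟨ENNReal.ofReal (2 * π)⁻¹ * ((C * (K : ℝ≥0∞) ^ q) ^ ((n : ℝ) / 2) * J), ?_, ?_⟩
  · refine ENNReal.mul_ne_top ENNReal.ofReal_ne_top (ENNReal.mul_ne_top
      (ENNReal.rpow_ne_top_of_nonneg hn2 (ENNReal.mul_ne_top hC
        (ENNReal.rpow_ne_top_of_nonneg (by linarith) ENNReal.coe_ne_top))) hJt)
  intro p hp F hFp
  have e := lint_neg_mul (fun t => (∫⁻ X : ℝ × ℝ, ‖EX F X t‖ₑ ^ q) ^ ((n : ℝ) / 2)) (2 * π)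
    (by positivity)
  rw [e]
  gcongr
  calc ∫⁻ t : ℝ, (∫⁻ X : ℝ × ℝ, ‖EX F X t‖ₑ ^ q) ^ ((n : ℝ) / 2)
      ≤ ∫⁻ t : ℝ, (C * (K : ℝ≥0∞) ^ q) ^ ((n : ℝ) / 2) *
          ENNReal.ofReal ((1 + ‖t‖) ^ (-(σ * (n / 2)))) := by
        apply lintegral_mono
        intro t
        simp only
        calc (∫⁻ X : ℝ × ℝ, ‖EX F X t‖ₑ ^ q) ^ ((n : ℝ) / 2)
            ≤ (C * ENNReal.ofReal ((1 + |t|) ^ (-σ)) * (K : ℝ≥0∞) ^ q) ^ ((n : ℝ) / 2) := by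
              gcongr
              exact hb p hp F K hFp t
          _ = (C * (K : ℝ≥0∞) ^ q) ^ ((n : ℝ) / 2) *
                ENNReal.ofReal ((1 + |t|) ^ (-σ)) ^ ((n : ℝ) / 2) := by
              rw [← ENNReal.mul_rpow_of_nonneg _ _ hn2]
              congr 1
              ring
          _ = _ := by
              rw [ENNReal.ofReal_rpow_of_pos (by positivity), ← Real.rpow_mul (by positivity),
                neg_mul, Real.norm_eq_abs]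
    _ = _ := by
        rw [lintegral_const_mul' _ _ (ENNReal.rpow_ne_top_of_nonneg hn2 (ENNReal.mul_ne_top hC
        (ENNReal.rpow_ne_top_of_nonneg (by linarith) ENNReal.coe_ne_top)))]

/-- the two forms of the extension operator of the parabola -/
lemma E1_HT (b : ℝ → ℂ) (hb0 : ∀ x, x ∉ Icc (-1 : ℝ) 1 → b x = 0) (y t : ℝ) :
    E1 b (-(2 * π * y)) (-(2 * π * t)) = HT.E1 b y t := by
  unfold E1 HT.E1
  rw [← setIntegral_eq_integral_of_forall_compl_eq_zero (s := Icc (-1 : ℝ) 1)]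
  · apply setIntegral_congr_fun measurableSet_Icc
    intro x _
    simp only [HT.ch, smul_eq_mul]
    congr 2
    push_cast
    ring
  · intro x hx
    rw [hb0 x hx, mul_zero]

/-- mixed norm bound in one variable -/
theorem mix_one (n : ℕ) (hn : 2 ≤ n) (q : ℝ) (hq : 2 * ((n : ℝ) + 1) / n < q) :
    ∃ C : ℝ≥0∞, C ≠ ∞ ∧ ∀ (b : ℝ → ℂ), Measurable b → (∀ x, x ∉ Icc (-1 : ℝ) 1 → b x = 0) →
      (∀ x, ‖b x‖ ≤ 1) →
      ∫⁻ t : ℝ, (∫⁻ y : ℝ, ‖E1 b y (-(2 * π * t))‖ₑ ^ q) ^ (n : ℝ) ≤ C := by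
  obtain ⟨C, hC⟩ := HT.mix n hn q hq
  refine ⟨ENNReal.ofReal (2 * π) ^ (n : ℝ) * C, ENNReal.mul_ne_top
    (ENNReal.rpow_ne_top_of_nonneg (by positivity) ENNReal.ofReal_ne_top) ENNReal.coe_ne_top, ?_⟩
  intro b hb hb0 hb1
  have h1 := hC ℂ b ⟨hb.stronglyMeasurable, hb1⟩
  have e : ∀ t : ℝ, ∫⁻ y : ℝ, ‖E1 b y (-(2 * π * t))‖ₑ ^ q =
      ENNReal.ofReal (2 * π) * ∫⁻ y : ℝ, ‖HT.E1 b y t‖ₑ ^ q := by
    intro t
    have h2 := lint_neg_mul (fun y => ‖E1 b y (-(2 * π * t))‖ₑ ^ q) (2 * π) (by positivity)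
    simp only [E1_HT b hb0] at h2
    rw [h2, ← mul_assoc, ← ENNReal.ofReal_mul (by positivity), mul_inv_cancel₀ (by positivity)]
    simp
  simp only [e]
  calc ∫⁻ t : ℝ, (ENNReal.ofReal (2 * π) * ∫⁻ y : ℝ, ‖HT.E1 b y t‖ₑ ^ q) ^ (n : ℝ)
      = ∫⁻ t : ℝ, ENNReal.ofReal (2 * π) ^ (n : ℝ) * (∫⁻ y : ℝ, ‖HT.E1 b y t‖ₑ ^ q) ^ (n : ℝ) := by
        apply lintegral_congr
        intro t
        exact ENNReal.mul_rpow_of_nonneg _ _ (by positivity)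
    _ = ENNReal.ofReal (2 * π) ^ (n : ℝ) * ∫⁻ t : ℝ, (∫⁻ y : ℝ, ‖HT.E1 b y t‖ₑ ^ q) ^ (n : ℝ) := by
        rw [lintegral_const_mul' _ _ (ENNReal.rpow_ne_top_of_nonneg (by positivity)
          ENNReal.ofReal_ne_top)]
    _ ≤ _ := by
        gcongr

end Pool.Agent.TH407.PR
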