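import Mathlib
import Pool.Agent.TH407.PR.R4
import Pool.Agent.TH461.PR.Tensor
set_option autoImplicit false

/-! Products. -/

namespace Pool.Agent.TH407.PR

open MeasureTheory Set Complex
open scoped ENNReal NNReal Real
open Pool.Agent.TH407.AR
open Pool.Agent.TH277

lemma E1_meas {b : ℝ → ℂ} (hb : Measurable b) : Measurable (fun p : ℝ × ℝ => E1 b p.1 p.2) := by
  have h : StronglyMeasurable (fun p : (ℝ × ℝ) × ℝ =>
      cexp (-(I * ((p.2 * p.1.1 + p.2 ^ 2 * p.1.2 : ℝ) : ℂ))) * b p.2) := by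
    apply Measurable.stronglyMeasurable
    fun_prop
  exact (h.integral_prod_right' (ν := (volume : Measure ℝ))).measurable

lemma EN_meas {n : ℕ} {f : (Fin n → ℝ) → ℂ} (hf : Measurable f) : Measurable (EN f) := by
  have h : StronglyMeasurable (fun p : ((Fin n → ℝ) × ℝ) × (Fin n → ℝ) =>
      f p.2 * cexp (2 * Real.pi * I *
        ((∑ j, p.2 j * p.1.1 j + (∑ j, p.2 j ^ 2) * p.1.2 : ℝ) : ℂ))) := by
    apply Measurable.stronglyMeasurable
    fun_prop
  exact (h.integral_prod_right' (ν := (volume : Measure (Fin n → ℝ)))).measurable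

lemma tens_meas {n k l : ℕ} (e : (Fin k × Fin 2) ⊕ Fin l ≃ Fin n) {F : Fin k → ℝ × ℝ → ℂ}
    {b : Fin l → ℝ → ℂ} (hF : ∀ j, Measurable (F j)) (hb : ∀ i, Measurable (b i)) :
    Measurable (tens e F b) := by
  unfold tens
  apply Measurable.mul
  · apply Finset.measurable_prod
    intro j _
    exact (hF j).comp (by fun_prop)
  · apply Finset.measurable_prod
    intro i _
    exact (hb i).comp (by fun_prop)

lemma HX_meas {F : ℝ × ℝ → ℂ} (hF : Measurable F) (q : ℝ) :
    Measurable (fun t : ℝ => ∫⁻ X : ℝ × ℝ, ‖EX F X (-(2 * π * t))‖ₑ ^ q) := by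
  have h1 : Measurable (fun z : ℝ × (ℝ × ℝ) => (z.2, -(2 * π * z.1))) := by fun_prop
  have h2 := (((EX_meas hF).enorm.pow_const q).comp h1).lintegral_prod_right'
    (ν := (volume : Measure (ℝ × ℝ)))
  exact h2

lemma H1_meas {b : ℝ → ℂ} (hb : Measurable b) (q : ℝ) :
    Measurable (fun t : ℝ => ∫⁻ y : ℝ, ‖E1 b y (-(2 * π * t))‖ₑ ^ q) := by
  have h1 : Measurable (fun z : ℝ × ℝ => (z.2, -(2 * π * z.1))) := by fun_prop
  have h2 := (((E1_meas hb).enorm.pow_const q).comp h1).lintegral_prod_right'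
    (ν := (volume : Measure ℝ))
  exact h2

theorem prod_bound (h1 : FourierFacts) (h2 : LowL4) (h3 : FaBounds) (hV : VarMod)
    (n : ℕ) (hn : 2 ≤ n) (q : ℝ) (hq : 2 * ((n : ℝ) + 1) / n < q) (K : ℝ≥0) :
    ∃ C : ℝ≥0∞, C ≠ ∞ ∧ ∀ (k l : ℕ) (e : (Fin k × Fin 2) ⊕ Fin l ≃ Fin n) (p : Fin k → ℝ × ℝ)
      (F : Fin k → ℝ × ℝ → ℂ) (b : Fin l → ℝ → ℂ), (∀ j, AR.sq (p j) ≤ (K : ℝ) ^ 2) →
      (∀ j, RayBV (p j) K (F j)) → (∀ i, Measurable (b i)) →
      (∀ i x, x ∉ Icc (-1 : ℝ) 1 → b i x = 0) → (∀ i x, ‖b i x‖ ≤ 1) →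
      ∫⁻ y : (Fin n → ℝ) × ℝ, ‖EN (tens e F b) y‖ₑ ^ q ≤ C := by
  have hn2 : (2 : ℝ) ≤ n := by exact_mod_cast hn
  have hn0 : (0 : ℝ) < n := by linarith
  have hq0 : 0 < q := lt_trans (by positivity) hq
  obtain ⟨C1, hC1, hb1⟩ := mix_ray h1 h2 h3 hV n hn q hq K
  obtain ⟨C2, hC2, hb2⟩ := mix_one n hn q hq
  set D : ℝ≥0∞ := max C1 C2 with hD
  have hDt : D ≠ ∞ := (max_lt (lt_top_iff_ne_top.2 hC1) (lt_top_iff_ne_top.2 hC2)).ne
  refine ⟨ENNReal.ofReal ((2 * π) ^ (-(n : ℝ))) * D, ENNReal.mul_ne_top ENNReal.ofReal_ne_top hDt,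
    ?_⟩
  intro k l e p F b hp hF hb hb0 hbb
  have hcard : 2 * (k : ℝ) + l = n := by
    have := Fintype.card_congr e
    simp only [Fintype.card_sum, Fintype.card_prod, Fintype.card_fin] at this
    rw [← this]
    push_cast
    ring
  have hTm := tens_meas e (fun j => (hF j).meas) hb
  have hm : Measurable (fun y : (Fin n → ℝ) × ℝ => ‖EN (tens e F b) y‖ₑ ^ q) :=
    (EN_meas hTm).enorm.pow_const q
  have hT := Pool.Agent.TH461.PR.tensor n k l e F b (fun j => (hF j).meas) hb q hq0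
  rw [Measure.volume_eq_prod, lintegral_prod_symm _ hm.aemeasurable]
  simp only [hT]
  rw [lintegral_const_mul' _ _ ENNReal.ofReal_ne_top]
  gcongr
  -- Hölder
  set g : Fin k ⊕ Fin l → ℝ → ℝ≥0∞ := Sum.elim
    (fun j t => (∫⁻ X : ℝ × ℝ, ‖EX (F j) X (-(2 * π * t))‖ₑ ^ q) ^ ((n : ℝ) / 2))
    (fun i t => (∫⁻ y : ℝ, ‖E1 (b i) y (-(2 * π * t))‖ₑ ^ q) ^ (n : ℝ)) with hg
  set w : Fin k ⊕ Fin l → ℝ := Sum.elim (fun _ => 2 / (n : ℝ)) (fun _ => 1 / (n : ℝ)) with hw
  have hw1 : ∑ i, w i = 1 := by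
    rw [Fintype.sum_sum_type]
    simp only [hw, Sum.elim_inl, Sum.elim_inr, Finset.sum_const, Finset.card_univ,
      Fintype.card_fin, nsmul_eq_mul]
    have h5 : (k : ℝ) * (2 / n) + l * (1 / n) = (2 * k + l) / n := by ring
    rw [h5, hcard, div_self hn0.ne']
  have hw0 : ∀ i, 0 ≤ w i := by
    intro i
    rcases i with j | i
    · simp only [hw, Sum.elim_inl]; positivity
    · simp only [hw, Sum.elim_inr]; positivity
  have hgm : ∀ i, Measurable (g i) := by
    intro i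
    rcases i with j | i
    · exact (HX_meas (hF j).meas q).pow_const _
    · exact (H1_meas (hb i) q).pow_const _
  have hgD : ∀ i, ∫⁻ t, g i t ≤ D := by
    intro i
    rcases i with j | i
    · exact (hb1 (p j) (hp j) (F j) (hF j)).trans (le_max_left _ _)
    · exact (hb2 (b i) (hb i) (hb0 i) (hbb i)).trans (le_max_right _ _)
  have hH := ENNReal.lintegral_prod_norm_pow_le (μ := (volume : Measure ℝ)) Finset.univ
    (f := g) (fun i _ => (hgm i).aemeasurable) (p := w) hw1 (fun i _ => hw0 i)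
  have e1 : ∀ t, ∏ i, g i t ^ w i = (∏ j, ∫⁻ X : ℝ × ℝ, ‖EX (F j) X (-(2 * π * t))‖ₑ ^ q) *
      ∏ i, ∫⁻ y : ℝ, ‖E1 (b i) y (-(2 * π * t))‖ₑ ^ q := by
    intro t
    rw [Fintype.prod_sum_type]
    congr 1
    · apply Finset.prod_congr rfl
      intro j _
      simp only [hg, hw, Sum.elim_inl]
      rw [← ENNReal.rpow_mul, show (n : ℝ) / 2 * (2 / n) = 1 by field_simp, ENNReal.rpow_one]
    · apply Finset.prod_congr rfl
      intro j _
      simp only [hg, hw, Sum.elim_inr]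
      rw [← ENNReal.rpow_mul, show (n : ℝ) * (1 / n) = 1 by field_simp, ENNReal.rpow_one]
  simp only [e1] at hH
  refine hH.trans ?_
  calc ∏ i, (∫⁻ t, g i t) ^ w i ≤ ∏ i, D ^ w i := by
        apply Finset.prod_le_prod'
        intro i _
        exact ENNReal.rpow_le_rpow (hgD i) (hw0 i)
    _ = D := by
        by_cases hD0 : D = 0
        · have hw2 : ∀ i, 0 < w i := by
            intro i
            rcases i with j | i
            · simp only [hw, Sum.elim_inl]; positivity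
            · simp only [hw, Sum.elim_inr]; positivity
          have hne : Nonempty (Fin k ⊕ Fin l) := by
            by_contra hcon
            rw [not_nonempty_iff] at hcon
            rw [Finset.univ_eq_empty, Finset.sum_empty] at hw1
            norm_num at hw1
          obtain ⟨i⟩ := hne
          rw [hD0]
          apply Finset.prod_eq_zero (Finset.mem_univ i)
          exact ENNReal.zero_rpow_of_pos (hw2 i)
        · have : ∀ s : Finset (Fin k ⊕ Fin l), ∏ i ∈ s, D ^ w i = D ^ (∑ i ∈ s, w i) := by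
            intro s
            induction s using Finset.induction_on with
            | empty => simp
            | insert a s ha ih =>
              rw [Finset.prod_insert ha, Finset.sum_insert ha, ih, ENNReal.rpow_add _ _ hD0 hDt]
          rw [this, hw1, ENNReal.rpow_one]

end Pool.Agent.TH407.PR
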