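import Mathlib
import Pool.Agent.TH407.PR.R5
set_option autoImplicit false

/-! Rotations and averages. -/

namespace Pool.Agent.TH407.PR

open MeasureTheory Set Complex Matrix
open scoped ENNReal NNReal Real

/-- an orthogonal matrix as a measurable equivalence -/
noncomputable def rotEquiv {n : ℕ} (O : Matrix (Fin n) (Fin n) ℝ) (hO : O * Oᵀ = 1) :
    (Fin n → ℝ) ≃ᵐ (Fin n → ℝ) where
  toFun ξ := O *ᵥ ξ
  invFun ξ := Oᵀ *ᵥ ξ
  left_inv := by
    intro ξ
    simp only [mulVec_mulVec, mul_eq_one_comm.1 hO, one_mulVec]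
  right_inv := by
    intro ξ
    simp only [mulVec_mulVec, hO, one_mulVec]
  measurable_toFun := by
    apply Continuous.measurable
    show Continuous fun ξ : Fin n → ℝ => O *ᵥ ξ
    fun_prop
  measurable_invFun := by
    apply Continuous.measurable
    show Continuous fun ξ : Fin n → ℝ => Oᵀ *ᵥ ξ
    fun_prop

lemma rot_mp {n : ℕ} (O : Matrix (Fin n) (Fin n) ℝ) (hO : O * Oᵀ = 1) :
    MeasurePreserving (rotEquiv O hO) volume volume := by
  have hdet : |O.det| = 1 := by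
    have h1 := congrArg Matrix.det hO
    rw [det_mul, det_transpose, det_one] at h1
    have h2 : |O.det| * |O.det| = 1 := by rw [← abs_mul, h1, abs_one]
    nlinarith [abs_nonneg O.det]
  have hne : O.det ≠ 0 := by
    intro h
    rw [h] at hdet
    norm_num at hdet
  refine ⟨(rotEquiv O hO).measurable, ?_⟩
  have h := Real.map_matrix_volume_pi_eq_smul_volume_pi hne
  rw [abs_inv, hdet, inv_one, ENNReal.ofReal_one, one_smul] at h
  exact h

lemma rot_dot {n : ℕ} (O : Matrix (Fin n) (Fin n) ℝ) (hO : O * Oᵀ = 1) (a b : Fin n → ℝ) :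
    ∑ j, (O *ᵥ a) j * (O *ᵥ b) j = ∑ j, a j * b j := by
  have h : (O *ᵥ a) ⬝ᵥ (O *ᵥ b) = a ⬝ᵥ b := by
    rw [dotProduct_mulVec, vecMul_mulVec, mul_eq_one_comm.1 hO, vecMul_one]
  exact h

lemma EN_rot {n : ℕ} (O : Matrix (Fin n) (Fin n) ℝ) (hO : O * Oᵀ = 1) (g : (Fin n → ℝ) → ℂ)
    (y : Fin n → ℝ) (t : ℝ) : EN (fun ξ => g (O *ᵥ ξ)) (y, t) = EN g (O *ᵥ y, t) := by
  unfold EN
  have h := (rot_mp O hO).integral_comp (rotEquiv O hO).measurableEmbedding
    (fun ξ : Fin n → ℝ => g ξ * cexp (2 * Real.pi * I *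
      ((∑ j, ξ j * (O *ᵥ y) j + (∑ j, ξ j ^ 2) * t : ℝ) : ℂ)))
  simp only
  rw [← h]
  apply integral_congr_ae
  refine ae_of_all _ fun ξ => ?_
  have e1 : rotEquiv O hO ξ = O *ᵥ ξ := rfl
  have e2 : ∑ j, (O *ᵥ ξ) j ^ 2 = ∑ j, ξ j ^ 2 := by
    have := rot_dot O hO ξ ξ
    simp only [← pow_two] at this
    exact this
  simp only [e1, rot_dot O hO, e2]

lemma lint_rot {n : ℕ} (O : Matrix (Fin n) (Fin n) ℝ) (hO : O * Oᵀ = 1) {g : (Fin n → ℝ) → ℂ}
    (hg : Measurable g) (q : ℝ) :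
    ∫⁻ y : (Fin n → ℝ) × ℝ, ‖EN (fun ξ => g (O *ᵥ ξ)) y‖ₑ ^ q =
      ∫⁻ y : (Fin n → ℝ) × ℝ, ‖EN g y‖ₑ ^ q := by
  have hgO : Measurable (fun ξ => g (O *ᵥ ξ)) := hg.comp (rotEquiv O hO).measurable
  rw [Measure.volume_eq_prod, lintegral_prod_symm _ ((EN_meas hgO).enorm.pow_const q).aemeasurable,
    lintegral_prod_symm _ ((EN_meas hg).enorm.pow_const q).aemeasurable]
  apply lintegral_congr
  intro t
  simp only [EN_rot O hO]
  exact (rot_mp O hO).lintegral_comp_emb (rotEquiv O hO).measurableEmbedding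
    (fun y => ‖EN g (y, t)‖ₑ ^ q)

/-- Jensen's inequality -/
lemma jensen {S : Type} [MeasurableSpace S] (ν : Measure S) [IsFiniteMeasure ν] (q : ℝ)
    (hq : 1 < q) (f : S → ℝ≥0∞) (hf : AEMeasurable f ν) :
    (∫⁻ s, f s ∂ν) ^ q ≤ ν univ ^ (q - 1) * ∫⁻ s, f s ^ q ∂ν := by
  have hq0 : 0 < q := by linarith
  have hpq : q.HolderConjugate (q / (q - 1)) := (Real.holderConjugate_iff_eq_conjExponent hq).2 rfl
  have h := ENNReal.lintegral_mul_le_Lp_mul_Lq ν hpq hf (g := fun _ => 1) aemeasurable_const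
  simp only [Pi.mul_apply, mul_one, ENNReal.one_rpow, lintegral_const, one_mul] at h
  have h2 := ENNReal.rpow_le_rpow h hq0.le
  rw [ENNReal.mul_rpow_of_nonneg _ _ hq0.le, ← ENNReal.rpow_mul, ← ENNReal.rpow_mul,
    one_div_mul_cancel hq0.ne', ENNReal.rpow_one] at h2
  have e : 1 / (q / (q - 1)) * q = q - 1 := by
    field_simp
  rw [e, mul_comm] at h2
  exact h2

/-- averages -/
theorem average {n : ℕ} (q : ℝ) (hq : 1 < q) (C : ℝ≥0∞) {S : Type} [MeasurableSpace S]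
    (ν : Measure S) [IsFiniteMeasure ν] (φ : S → (Fin n → ℝ) → ℂ)
    (hφ : Measurable (Function.uncurry φ)) (hφ1 : ∀ s ξ, ‖φ s ξ‖ ≤ 1)
    (hφ0 : ∀ s ξ, ξ ∉ Icc (-1 : Fin n → ℝ) 1 → φ s ξ = 0)
    (hC : ∀ s, ∫⁻ y : (Fin n → ℝ) × ℝ, ‖EN (φ s) y‖ₑ ^ q ≤ C) :
    ∫⁻ y : (Fin n → ℝ) × ℝ, ‖EN (fun ξ => ∫ s, φ s ξ ∂ν) y‖ₑ ^ q ≤ C * ν univ ^ q := by
  have hq0 : 0 < q := by linarith
  have hint : ∀ y : (Fin n → ℝ) × ℝ, Integrable (Function.uncurry fun (s : S) (ξ : Fin n → ℝ) =>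
      φ s ξ * cexp (2 * Real.pi * I * ((∑ j, ξ j * y.1 j + (∑ j, ξ j ^ 2) * y.2 : ℝ) : ℂ)))
      (ν.prod volume) := by
    intro y
    have hm : Measurable (Function.uncurry fun (s : S) (ξ : Fin n → ℝ) =>
        φ s ξ * cexp (2 * Real.pi * I *
          ((∑ j, ξ j * y.1 j + (∑ j, ξ j ^ 2) * y.2 : ℝ) : ℂ))) := by
      have h2 : Measurable fun p : S × (Fin n → ℝ) => cexp (2 * Real.pi * I *
          ((∑ j, p.2 j * y.1 j + (∑ j, p.2 j ^ 2) * y.2 : ℝ) : ℂ)) := by fun_prop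
      exact hφ.mul h2
    have hsub : IntegrableOn (Function.uncurry fun (s : S) (ξ : Fin n → ℝ) =>
        φ s ξ * cexp (2 * Real.pi * I *
          ((∑ j, ξ j * y.1 j + (∑ j, ξ j ^ 2) * y.2 : ℝ) : ℂ)))
        (univ ×ˢ Icc (-1 : Fin n → ℝ) 1) (ν.prod volume) := by
      apply Measure.integrableOn_of_bounded (M := 1)
      · rw [Measure.prod_prod]
        exact ENNReal.mul_ne_top (measure_ne_top _ _) isCompact_Icc.measure_lt_top.ne
      · exact hm.aestronglyMeasurable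
      · refine ae_of_all _ fun p => ?_
        simp only [Function.uncurry, norm_mul]
        have h3 : ‖cexp (2 * Real.pi * I *
          ((∑ j, p.2 j * y.1 j + (∑ j, p.2 j ^ 2) * y.2 : ℝ) : ℂ))‖ = 1 := by
          rw [show 2 * (Real.pi : ℂ) * I *
            ((∑ j, p.2 j * y.1 j + (∑ j, p.2 j ^ 2) * y.2 : ℝ) : ℂ) =
            ((2 * Real.pi * (∑ j, p.2 j * y.1 j + (∑ j, p.2 j ^ 2) * y.2) : ℝ) : ℂ) * I by
              push_cast; ring]
          exact Complex.norm_exp_ofReal_mul_I _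
        rw [h3, mul_one]
        exact hφ1 _ _
    rw [integrableOn_iff_integrable_of_support_subset] at hsub
    · exact hsub
    · intro p hp
      refine ⟨mem_univ _, ?_⟩
      by_contra hcon
      apply hp
      simp only [Function.uncurry]
      rw [hφ0 p.1 p.2 hcon, zero_mul]
  have hEN : ∀ y, EN (fun ξ => ∫ s, φ s ξ ∂ν) y = ∫ s, EN (φ s) y ∂ν := by
    intro y
    unfold EN
    rw [integral_integral_swap (hint y)]
    apply integral_congr_ae
    refine ae_of_all _ fun ξ => ?_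
    simp only
    rw [integral_mul_const]
  have hmE : Measurable (fun p : S × ((Fin n → ℝ) × ℝ) => EN (φ p.1) p.2) := by
    have h : StronglyMeasurable (fun p : (S × ((Fin n → ℝ) × ℝ)) × (Fin n → ℝ) =>
        φ p.1.1 p.2 * cexp (2 * Real.pi * I *
          ((∑ j, p.2 j * p.1.2.1 j + (∑ j, p.2 j ^ 2) * p.1.2.2 : ℝ) : ℂ))) := by
      apply Measurable.stronglyMeasurable
      have h1 : Measurable fun p : (S × ((Fin n → ℝ) × ℝ)) × (Fin n → ℝ) => φ p.1.1 p.2 :=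
        hφ.comp (by fun_prop : Measurable fun p : (S × ((Fin n → ℝ) × ℝ)) × (Fin n → ℝ) =>
          (p.1.1, p.2))
      fun_prop
    exact (h.integral_prod_right' (ν := (volume : Measure (Fin n → ℝ)))).measurable
  calc ∫⁻ y : (Fin n → ℝ) × ℝ, ‖EN (fun ξ => ∫ s, φ s ξ ∂ν) y‖ₑ ^ q
      ≤ ∫⁻ y : (Fin n → ℝ) × ℝ, ν univ ^ (q - 1) * ∫⁻ s, ‖EN (φ s) y‖ₑ ^ q ∂ν := by
        apply lintegral_mono
        intro y
        simp only
        rw [hEN]
        refine (ENNReal.rpow_le_rpow (enorm_integral_le_lintegral_enorm _) hq0.le).trans ?_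
        apply jensen ν q hq
        have h1 : Measurable fun s : S => (s, y) := by fun_prop
        exact ((hmE.comp h1).enorm).aemeasurable
    _ = ν univ ^ (q - 1) * ∫⁻ s, (∫⁻ y : (Fin n → ℝ) × ℝ, ‖EN (φ s) y‖ₑ ^ q) ∂ν := by
        rw [lintegral_const_mul' _ _ (ENNReal.rpow_ne_top_of_nonneg (by linarith)
          (measure_ne_top _ _))]
        congr 1
        rw [lintegral_lintegral_swap]
        exact ((hmE.enorm.pow_const q).comp measurable_swap).aemeasurable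
    _ ≤ ν univ ^ (q - 1) * ∫⁻ s, C ∂ν := by
        gcongr with s
        exact hC s
    _ = C * ν univ ^ q := by
        rw [lintegral_const, mul_comm C, mul_comm C, ← mul_assoc]
        congr 1
        by_cases h0 : ν univ = 0
        · rw [h0, mul_zero, ENNReal.zero_rpow_of_pos hq0]
        · nth_rw 2 [← ENNReal.rpow_one (ν univ)]
          rw [← ENNReal.rpow_add _ _ h0 (measure_ne_top _ _)]
          congr 1
          ring

end Pool.Agent.TH407.PR
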